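import Mathlib

set_option autoImplicit false

namespace Pool.Agent.Results.MP_8652de_gt.NotHurewicz

open Set Filter Topology

universe u

/-- The Hurewicz covering property. -/
def Hurewicz (X : Type u) (T : TopologicalSpace X) : Prop :=
  ∀ 𝒰 : ℕ → Set (Set X), (∀ n, (∀ U ∈ 𝒰 n, @IsOpen X T U) ∧ ⋃₀ 𝒰 n = Set.univ) →
    ∃ 𝒱 : ℕ → Set (Set X), (∀ n, 𝒱 n ⊆ 𝒰 n ∧ (𝒱 n).Finite) ∧
      ∀ x, ∀ᶠ n in Filter.atTop, x ∈ ⋃₀ 𝒱 n

def HC {X : Type u} (𝒞 : Set (Set X)) (K : Set X) : Prop :=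
  ∀ 𝒰 : ℕ → Set (Set X), (∀ n, 𝒰 n ⊆ 𝒞 ∧ K ⊆ ⋃₀ 𝒰 n) →
    ∃ 𝒱 : ℕ → Set (Set X), (∀ n, 𝒱 n ⊆ 𝒰 n ∧ (𝒱 n).Finite) ∧ ∀ x ∈ K, ∀ᶠ n in atTop, x ∈ ⋃₀ 𝒱 n

lemma game {X S : Type u} {𝒞 : Set (Set X)} {K : Set X} (H : HC 𝒞 K) (I : S → Set (Set X))
    (h1 : ∀ σ, I σ ⊆ 𝒞 ∧ K ⊆ ⋃₀ I σ) (R : S → Set X → S → Prop)
    (h2 : ∀ σ, ∀ 𝒱 ⊆ I σ, 𝒱.Finite → ∃ σ', R σ (⋃₀ 𝒱) σ') (σ₀ : S) :
    ∃ (σ : ℕ → S) (U : ℕ → Set X), (∀ n, R (σ n) (U n) (σ (n + 1))) ∧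
      ∀ x ∈ K, ∀ᶠ n in atTop, x ∈ U n := by
  choose V hV hV' using fun σ => H (fun _ => I σ) fun _ => h1 σ
  let W : S → ℕ → Set (Set X) := fun σ k => ⋃ n ∈ Iic k, V σ n
  choose nx hnx using fun σ k => h2 σ (W σ k) (iUnion₂_subset fun n _ => (hV σ n).1)
    ((finite_Iic k).biUnion fun n _ => (hV σ n).2)
  let st : List ℕ → S := fun s => s.foldr (fun k σ => nx σ k) σ₀
  obtain ⟨𝒱, h3, h4⟩ := H (fun m => ⋃ k, V (st (Denumerable.ofNat (List ℕ) m)) k) fun m =>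
    ⟨iUnion_subset fun k => (hV _ k).1.trans (h1 _).1, fun x hx => by
      obtain ⟨k, A, hA, h⟩ := (hV' _ x hx).exists
      exact ⟨A, mem_iUnion.2 ⟨k, hA⟩, h⟩⟩
  have h5 : ∀ s : List ℕ, ∃ k, 𝒱 (Encodable.encode s) ⊆ W (st s) k := fun s => by
    obtain ⟨t, ht, h⟩ := finite_subset_iUnion (h3 (Encodable.encode s)).2 (h3 _).1
    obtain ⟨k, hk⟩ := ht.bddAbove
    rw [Denumerable.ofNat_encode] at h
    exact ⟨k, h.trans (biUnion_subset_biUnion_left hk)⟩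
  choose k hk using h5
  let b : ℕ → List ℕ := fun n => Nat.rec [] (fun _ s => k s :: s) n
  have hb : ∀ n, (b n).length = n := fun n => by
    induction n with
    | zero => rfl
    | succ n ih => exact congrArg Nat.succ ih
  have hi : Function.Injective fun n => Encodable.encode (b n) := fun m n e => by
    rw [← hb m, ← hb n, Encodable.encode_injective e]
  refine ⟨fun n => st (b n), fun n => ⋃₀ W (st (b n)) (k (b n)), fun n => hnx _ _, fun x hx => ?_⟩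
  filter_upwards [hi.nat_tendsto_atTop.eventually (h4 x hx)] with n hn
  exact sUnion_subset_sUnion (hk _) hn

lemma play {X : Type u} [TopologicalSpace X] [CompactSpace X] [T2Space X] {𝒞 : Set (Set X)}
    (H : HC 𝒞 univ) (hb : ∀ V, IsOpen V → ∀ x ∈ V, ∃ A ∈ 𝒞, x ∈ A ∧ A ⊆ V)
    (Q : Set X → X → Set X → Prop) (h1 : ∀ O p A, Q O p A → IsOpen O ∧ p ∈ O ∧ p ∈ A ∧ A ∈ 𝒞)
    (h2 : ∀ O p A, Q O p A → ∀ O₁, IsOpen O₁ → p ∈ O₁ → O₁ ⊆ O →
      ∃ O' p' A', Q O' p' A' ∧ O' ⊆ O₁ ∧ O' ∩ A ∩ A' ⊆ ∅) {O : Set X} {p : X} {A : Set X} :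
    ¬ Q O p A := by
  intro h0
  obtain ⟨σ, U, h3, h4⟩ := game (S := {t : Set X × X × Set X // Q t.1 t.2.1 t.2.2}) H
    (fun t => {U ∈ 𝒞 | t.1.2.1 ∉ closure (U \ t.1.2.2)}) (by
      rintro ⟨⟨O, p, A⟩, h⟩
      refine ⟨sep_subset _ _, fun x _ => ?_⟩
      obtain ⟨-, -, a1, a2⟩ := h1 _ _ _ h
      by_cases hx : x ∈ A
      · exact ⟨A, ⟨a2, by simp⟩, hx⟩
      · obtain ⟨V, W, hV, hW, b1, b2, b3⟩ := t2_separation (show x ≠ p from fun e => hx (e ▸ a1))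
        obtain ⟨B, c1, c2, c3⟩ := hb V hV x b1
        exact ⟨B, ⟨c1, fun h => disjoint_left.1 (b3.closure_left hW)
          (closure_mono (sdiff_subset.trans c3) h) b2⟩, c2⟩)
    (fun t U t' => closure t'.1.1 ⊆ t.1.1 \ (U \ t.1.2.2) ∧ t'.1.1 ∩ t.1.2.2 ∩ t'.1.2.2 ⊆ ∅) (by
      rintro ⟨⟨O, p, A⟩, h⟩ 𝒱 a1 a2
      obtain ⟨b1, b2, -⟩ := h1 _ _ _ h
      have b3 : p ∉ closure (⋃₀ 𝒱 \ A) := by
        simp only [sUnion_eq_biUnion, iUnion_sdiff]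
        rw [a2.closure_biUnion]
        exact fun h => by
          obtain ⟨U, hU, h⟩ := mem_iUnion₂.1 h
          exact (a1 hU).2 h
      obtain ⟨N, c1, c2, c3⟩ := exists_mem_nhds_isClosed_subset
        ((b1.sdiff isClosed_closure).mem_nhds ⟨b2, b3⟩)
      have c4 := c3.trans (sdiff_subset_sdiff_right subset_closure)
      obtain ⟨O', p', A', d1, d2, d3⟩ := h2 _ _ _ h _ isOpen_interior (mem_interior_iff_mem_nhds.2 c1)
        (interior_subset.trans (c4.trans sdiff_subset))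
      exact ⟨⟨⟨O', p', A'⟩, d1⟩, (closure_minimal (d2.trans interior_subset) c2).trans c4, d3⟩)
    ⟨⟨O, p, A⟩, h0⟩
  obtain ⟨x, hx⟩ := IsCompact.nonempty_iInter_of_sequence_nonempty_isCompact_isClosed
    (fun n => closure (σ n).1.1) (fun n => (h3 n).1.trans (sdiff_subset.trans subset_closure))
    (fun n => ⟨_, subset_closure (h1 _ _ _ (σ n).2).2.1⟩) isClosed_closure.isCompact
    fun n => isClosed_closure
  have h5 := fun n => (h3 n).1 (mem_iInter.1 hx (n + 1))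
  obtain ⟨n, hn⟩ := eventually_atTop.1 (h4 x trivial)
  have h6 : ∀ m, n ≤ m → x ∈ (σ m).1.2.2 := fun m hm => by_contra fun h => (h5 m).2 ⟨hn m hm, h⟩
  exact (h3 n).2 ⟨⟨(h5 (n + 1)).1, h6 n le_rfl⟩, h6 _ n.le_succ⟩

lemma main {X : Type u} [TopologicalSpace X] [CompactSpace X] [T2Space X] [PreconnectedSpace X]
    {𝒞 : Set (Set X)} (H : HC 𝒞 univ) (hb : ∀ V, IsOpen V → ∀ x ∈ V, ∃ A ∈ 𝒞, x ∈ A ∧ A ⊆ V)
    (hc : ∀ A ∈ 𝒞, Aᶜ ∈ 𝒞) (y z : X) : y = z := by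
  by_contra hne
  have res : ∀ A ∈ 𝒞, ∀ G, IsOpen G → G.Nonempty →
      (G ∩ interior A).Nonempty ∨ (G ∩ interior Aᶜ).Nonempty := by
    intro A hA G hG ⟨q, hq⟩
    by_contra hn
    simp only [not_or, interior_compl, not_nonempty_iff_eq_empty,
      ← disjoint_iff_inter_eq_empty] at hn
    have a1 : G ⊆ closure A := disjoint_compl_right_iff_subset.1 hn.2
    have a2 : G ⊆ closure Aᶜ := by rw [closure_compl]; exact hn.1.subset_compl_right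
    obtain ⟨r, r1, r2⟩ := mem_closure_iff.1 (a1 hq) G hG hq
    refine play H hb (fun O p B => IsOpen O ∧ p ∈ O ∧ p ∈ B ∧ B ∈ 𝒞 ∧ O ⊆ closure B ∩ closure Bᶜ)
      (fun _ _ _ h => ⟨h.1, h.2.1, h.2.2.1, h.2.2.2.1⟩) (fun O p B h O₁ b1 b2 b3 => ?_)
      ⟨hG, r1, r2, hA, subset_inter a1 a2⟩
    obtain ⟨p', c1, c2⟩ := mem_closure_iff.1 (h.2.2.2.2 h.2.1).2 O₁ b1 b2
    refine ⟨O₁, p', Bᶜ, ⟨b1, c1, c2, hc _ h.2.2.2.1, ?_⟩, subset_rfl, fun x h => h.2 h.1.2⟩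
    rw [compl_compl, inter_comm]
    exact b3.trans h.2.2.2.2
  have ex : ∀ O, IsOpen O → O.Nonempty →
      ∃ p A, IsOpen O ∧ p ∈ O ∧ p ∈ A ∧ A ∈ 𝒞 ∧ p ∈ closure (interior Aᶜ) := by
    intro O hO hne'
    by_contra hn
    simp only [not_exists, not_and] at hn
    have op : ∀ A ∈ 𝒞, IsOpen (O ∩ A) := fun A hA => isOpen_iff_mem_nhds.2 fun p hp => by
      refine mem_of_superset ((hO.sdiff isClosed_closure).mem_nhds
        ⟨hp.1, hn p A hO hp.1 hp.2 hA⟩) fun q hq => ⟨hq.1, by_contra fun h => ?_⟩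
      have := hn q Aᶜ hO hq.1 h (hc A hA)
      rw [compl_compl] at this
      rcases res A hA _ ((hO.sdiff isClosed_closure).sdiff isClosed_closure) ⟨q, hq, this⟩ with
        ⟨r, a, b⟩ | ⟨r, a, b⟩
      · exact a.2 (subset_closure b)
      · exact a.1.2 (subset_closure b)
    obtain ⟨p, hp⟩ := hne'
    obtain ⟨w, hw⟩ : ∃ w, p ≠ w := by
      by_cases h : p = y
      · exact ⟨z, h ▸ hne⟩
      · exact ⟨y, h⟩
    obtain ⟨N, c1, c2, c3⟩ := exists_mem_nhds_isClosed_subset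
      ((hO.sdiff isClosed_singleton).mem_nhds ⟨hp, hw⟩)
    obtain ⟨A, d1, d2, d3⟩ := hb _ isOpen_interior p (mem_interior_iff_mem_nhds.2 c1)
    have d4 := d3.trans interior_subset
    have : IsClopen A := by
      refine ⟨⟨?_⟩, ?_⟩
      · convert (op _ (hc A d1)).union c2.isOpen_compl using 1
        ext x
        have := @c3 x
        have := @d4 x
        simp only [mem_compl_iff, mem_union, mem_inter_iff, Set.mem_sdiff] at *
        tauto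
      · convert op A d1 using 1
        exact (inter_eq_right.2 (d4.trans (c3.trans sdiff_subset))).symm
    exact (c3 (d4 ((this.eq_univ ⟨p, d2⟩).ge (mem_univ w)))).2 rfl
  obtain ⟨p, A, h⟩ := ex univ isOpen_univ ⟨y, trivial⟩
  refine play H hb (fun O p A => IsOpen O ∧ p ∈ O ∧ p ∈ A ∧ A ∈ 𝒞 ∧ p ∈ closure (interior Aᶜ))
    (fun _ _ _ h => ⟨h.1, h.2.1, h.2.2.1, h.2.2.2.1⟩) (fun O p A h O₁ b1 b2 _ => ?_) h
  obtain ⟨p', A', h'⟩ := ex _ (b1.inter isOpen_interior) (mem_closure_iff.1 h.2.2.2.2 O₁ b1 b2)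
  exact ⟨_, p', A', h', inter_subset_left, fun x h => interior_subset h.1.1.2 h.1.2⟩

/-- A zero-dimensional refinement of a compact Hausdorff topology of positive small inductive
dimension is never Hurewicz. -/
theorem result (X : Type u) (T₁ T₂ : TopologicalSpace X)
    (hT : ∀ U : Set X, @IsOpen X T₂ U → @IsOpen X T₁ U)
    (hc : @CompactSpace X T₂) (ht : @T2Space X T₂)
    (h₁ : @smallInductiveDimension X T₁ = 0) (h₂ : 0 < @smallInductiveDimension X T₂) :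
    ¬ Hurewicz X T₁ := by
  intro H
  have b1 := (@hasSmallInductiveDimensionLT_one_iff X T₁).1
    ((@smallInductiveDimension_le_iff X T₁ 0).1 h₁.le)
  refine h₂.not_ge ((@smallInductiveDimension_le_iff X T₂ 0).2
    (hasSmallInductiveDimensionLT_one_iff.2 ?_))
  suffices TotallyDisconnectedSpace X from isTopologicalBasis_isClopen
  refine totallyDisconnectedSpace_iff_connectedComponent_subsingleton.2 fun x y hy z hz => ?_
  set K := connectedComponent x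
  have hK : IsClosed K := isClosed_connectedComponent
  have : CompactSpace K := isCompact_iff_compactSpace.1 hK.isCompact
  have : PreconnectedSpace K := isPreconnected_iff_preconnectedSpace.1 isPreconnected_connectedComponent
  refine congrArg Subtype.val (main (X := K) (𝒞 := preimage Subtype.val '' {A | @IsClopen X T₁ A})
    (fun 𝒰 h => ?_) (fun V hV p hp => ?_) ?_ ⟨y, hy⟩ ⟨z, hz⟩)
  · obtain ⟨𝒱, a1, a2⟩ := H (fun n => {A | @IsOpen X T₁ A ∧ Subtype.val ⁻¹' A ∈ insert ∅ (𝒰 n)})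
      fun n => ⟨fun _ h => h.1, eq_univ_of_forall fun p => by
        by_cases hp : p ∈ K
        · obtain ⟨U, b1, b2⟩ := (h n).2 (mem_univ ⟨p, hp⟩)
          obtain ⟨A, b3, rfl⟩ := (h n).1 b1
          exact ⟨A, ⟨b3.2, Or.inr b1⟩, b2⟩
        · exact ⟨Kᶜ, ⟨hT _ hK.isOpen_compl, Or.inl (by simp)⟩, hp⟩⟩
    refine ⟨fun n => 𝒰 n ∩ preimage Subtype.val '' 𝒱 n, fun n =>
      ⟨inter_subset_left, ((a1 n).2.image _).inter_of_right _⟩, fun p _ => ?_⟩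
    filter_upwards [a2 p] with n ⟨A, b1, b2⟩
    exact ⟨_, ⟨((a1 n).1 b1).2.resolve_left fun e => e.subset b2, A, b1, rfl⟩, b2⟩
  · obtain ⟨W, hW, rfl⟩ := isOpen_induced_iff.1 hV
    obtain ⟨A, a1, a2, a3⟩ := @TopologicalSpace.IsTopologicalBasis.exists_subset_of_mem_open X T₁ _
      b1 p W hp (hT W hW)
    exact ⟨_, ⟨A, a1, rfl⟩, a2, preimage_mono a3⟩
  · rintro _ ⟨A, hA, rfl⟩
    exact ⟨Aᶜ, @IsClopen.compl X T₁ A hA, rfl⟩

end Pool.Agent.Results.MP_8652de_gt.NotHurewicz
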